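import Pool.Agent.H656.DC.EDefs

/-! # Bernoulli shifts over `[0,1]` of residually finite groups have no finite generator -/

set_option autoImplicit false

open MeasureTheory Filter Topology
open scoped ENNReal

namespace Pool.Agent.H736.EN

open Pool.Agent.H656.DC

/-- `f` depends only on the coordinates in `V` -/
def Dep {ι B L : Type} (V : Finset ι) (f : (ι → B) → L) : Prop :=
  ∀ x y : ι → B, (∀ v ∈ V, x v = y v) → f x = f y

theorem approxFun {ι B : Type} [MeasurableSpace B] (μ : Measure (ι → B))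
    [IsProbabilityMeasure μ] {L : Type} [Finite L] [Nonempty L] (f : (ι → B) → L)
    (hf : ∀ l, MeasurableSet {x | f x = l}) (ε : ℝ≥0∞) (hε : ε ≠ 0) :
    ∃ (V : Finset ι) (g : (ι → B) → L), Dep V g ∧ (∀ l, MeasurableSet {x | g x = l}) ∧
      μ {x | f x ≠ g x} ≤ ε := by
  classical
  have := Fintype.ofFinite L
  have hd : μ.MeasureDense (measurableCylinders (fun _ : ι => B)) :=
    Measure.MeasureDense.of_generateFrom_isSetAlgebra_finite _ isSetAlgebra_measurableCylinders
      generateFrom_measurableCylinders.symm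
  by_cases hε' : ε = ∞
  · subst hε'
    refine ⟨∅, fun _ => Classical.arbitrary L, ?_, ?_, le_top⟩
    · intro x y _; rfl
    · intro l; exact MeasurableSet.const _
  obtain ⟨δ, hδ, hδε⟩ : ∃ δ : ℝ, 0 < δ ∧ ENNReal.ofReal δ * (Fintype.card L : ℝ≥0∞) ≤ ε := by
    refine ⟨ε.toReal / (Fintype.card L + 1), div_pos (ENNReal.toReal_pos hε hε') (by positivity), ?_⟩
    have h1 : (Fintype.card L : ℝ≥0∞) = ENNReal.ofReal (Fintype.card L) := by simp
    rw [h1, ← ENNReal.ofReal_mul (by positivity)]
    rw [ENNReal.ofReal_le_iff_le_toReal hε']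
    rw [div_mul_eq_mul_div, div_le_iff₀ (by positivity)]
    have := ENNReal.toReal_nonneg (a := ε)
    nlinarith
  have h1 : ∀ l : L, ∃ (I : Finset ι) (S : Set (I → B)), MeasurableSet S ∧
      μ (symmDiff {x | f x = l} (cylinder (α := fun _ => B) I S)) < ENNReal.ofReal δ := by
    intro l
    obtain ⟨t, ht, h⟩ := hd.approx _ (hf l) (measure_ne_top _ _) δ hδ
    obtain ⟨I, S, hS, rfl⟩ := (mem_measurableCylinders t).1 ht
    exact ⟨I, S, hS, h⟩
  choose I S hS hIS using h1
  let C : L → Set (ι → B) := fun l => cylinder (α := fun _ => B) (I l) (S l)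
  have hC : ∀ l, MeasurableSet (C l) := fun l => MeasurableSet.cylinder (I l) (hS l)
  -- choice function
  let G0 : (L → Prop) → L := fun P => if h : ∃ l, P l then h.choose else Classical.arbitrary L
  let g : (ι → B) → L := fun x => G0 (fun l => x ∈ C l)
  have hg0 : Measurable (fun x : ι → B => fun l : L => x ∈ C l) := by
    apply measurable_pi_lambda
    intro l
    exact measurableSet_setOfPred.1 (hC l)
  refine ⟨Finset.univ.biUnion I, g, ?_, ?_, ?_⟩
  · intro x y hxy
    have : (fun l : L => x ∈ C l) = (fun l : L => y ∈ C l) := by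
      funext l
      have : (Finset.restrict (I l) x : (i : I l) → B) = Finset.restrict (I l) y := by
        funext i
        exact hxy i (Finset.mem_biUnion.2 ⟨l, Finset.mem_univ _, i.2⟩)
      simp only [C, mem_cylinder, this]
    simp only [g, this]
  · intro l
    have : {x | g x = l} = (fun x : ι → B => fun l : L => x ∈ C l) ⁻¹' (G0 ⁻¹' {l}) := rfl
    rw [this]
    exact hg0 (Set.toFinite _).measurableSet
  · have hsub : {x | f x ≠ g x} ⊆ ⋃ l ∈ (Finset.univ : Finset L), symmDiff {x | f x = l} (C l) := by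
      intro x hx
      by_contra hcon
      apply hx
      simp only [Set.mem_iUnion, not_exists, Finset.mem_univ] at hcon
      have key : ∀ l, x ∈ C l ↔ f x = l := by
        intro l
        have := hcon l trivial
        rw [Set.mem_symmDiff] at this
        simp only [Set.mem_ofPred_eq] at this
        tauto
      have hex : ∃ l, x ∈ C l := ⟨f x, (key _).2 rfl⟩
      have : g x = hex.choose := by
        simp only [g, G0]
        rw [dif_pos hex]
      rw [this]
      exact (key _).1 hex.choose_spec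
    calc μ {x | f x ≠ g x} ≤ μ (⋃ l ∈ (Finset.univ : Finset L), symmDiff {x | f x = l} (C l)) :=
          measure_mono hsub
      _ ≤ ∑ l : L, μ (symmDiff {x | f x = l} (C l)) := measure_biUnion_finset_le _ _
      _ ≤ ∑ _l : L, ENNReal.ofReal δ := Finset.sum_le_sum fun l _ => (hIS l).le
      _ = ENNReal.ofReal δ * (Fintype.card L : ℝ≥0∞) := by
          rw [Finset.sum_const, Finset.card_univ, nsmul_eq_mul, mul_comm]
      _ ≤ ε := hδε

/-- Markov's inequality for counts -/
theorem markov {Ω Q : Type} [MeasurableSpace Ω] (P : Measure Ω) [Fintype Q] [Nonempty Q]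
    (E : Q → Set Ω) (hE : ∀ q, MeasurableSet (E q)) (η : ℝ≥0∞) (h : ∀ q, P (E q) ≤ η) :
    P {ω | Fintype.card Q ≤ 4 * Nat.card {q // ω ∈ E q}} ≤ 4 * η := by
  classical
  let f : Ω → ℝ≥0∞ := fun ω => ∑ q, (E q).indicator (fun _ => (1 : ℝ≥0∞)) ω
  have hf : Measurable f := by
    apply Finset.measurable_sum
    intro q _
    exact measurable_const.indicator (hE q)
  have hint : ∫⁻ ω, f ω ∂P ≤ Fintype.card Q * η := by
    simp only [f]
    rw [lintegral_finsetSum _ (fun q _ => measurable_const.indicator (hE q))]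
    calc ∑ q, ∫⁻ a, (E q).indicator (fun _ => (1 : ℝ≥0∞)) a ∂P = ∑ q, P (E q) := by
          apply Finset.sum_congr rfl
          intro q _
          rw [lintegral_indicator_const (hE q), one_mul]
      _ ≤ ∑ _q : Q, η := Finset.sum_le_sum fun q _ => h q
      _ = Fintype.card Q * η := by rw [Finset.sum_const, Finset.card_univ, nsmul_eq_mul]
  have hn0 : (Fintype.card Q : ℝ≥0∞) / 4 ≠ 0 := by
    simp
  have hn1 : (Fintype.card Q : ℝ≥0∞) / 4 ≠ ∞ := by
    apply ENNReal.div_ne_top (by simp) (by simp)
  have hcount : ∀ ω, f ω = (Nat.card {q // ω ∈ E q} : ℝ≥0∞) := by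
    intro ω
    simp only [f, Set.indicator_apply]
    rw [Nat.card_eq_fintype_card, Fintype.card_subtype, Finset.sum_boole]
  have hsub : {ω | Fintype.card Q ≤ 4 * Nat.card {q // ω ∈ E q}} ⊆
      {ω | (Fintype.card Q : ℝ≥0∞) / 4 ≤ f ω} := by
    intro ω hω
    simp only [Set.mem_ofPred_eq] at hω ⊢
    rw [hcount]
    apply ENNReal.div_le_of_le_mul
    rw [mul_comm]
    exact_mod_cast hω
  calc P {ω | Fintype.card Q ≤ 4 * Nat.card {q // ω ∈ E q}}
      ≤ P {ω | (Fintype.card Q : ℝ≥0∞) / 4 ≤ f ω} := measure_mono hsub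
    _ ≤ (∫⁻ ω, f ω ∂P) / ((Fintype.card Q : ℝ≥0∞) / 4) :=
        meas_ge_le_lintegral_div hf.aemeasurable hn0 hn1
    _ ≤ (Fintype.card Q * η) / ((Fintype.card Q : ℝ≥0∞) / 4) := by gcongr
    _ ≤ 4 * η := by
        have hc : (Fintype.card Q : ℝ≥0∞) ≠ 0 := by simp
        have hc' : (Fintype.card Q : ℝ≥0∞) ≠ ∞ := by simp
        apply ENNReal.div_le_of_le_mul
        rw [mul_comm (4 * η), ← mul_assoc, ENNReal.div_mul_cancel (by simp) (by simp)]

/-- restriction along an injective index map -/
theorem pi_map_inj {T Q : Type} [Fintype T] [Fintype Q] {B : Type} [MeasurableSpace B]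
    (ν : Measure B) [IsProbabilityMeasure ν] (j : T → Q) (hj : Function.Injective j) :
    (Measure.pi (fun _ : Q => ν)).map (fun ω (t : T) => ω (j t)) = Measure.pi (fun _ : T => ν) := by
  classical
  symm
  apply Measure.pi_eq
  intro s hs
  have hm : Measurable (fun (ω : Q → B) (t : T) => ω (j t)) :=
    measurable_pi_lambda _ fun t => measurable_pi_apply _
  rw [Measure.map_apply hm (MeasurableSet.univ_pi hs)]
  have : (fun (ω : Q → B) (t : T) => ω (j t)) ⁻¹' (Set.univ.pi s) =
      Set.univ.pi (fun q => if h : ∃ t, j t = q then s h.choose else Set.univ) := by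
    ext ω
    simp only [Set.mem_preimage, Set.mem_univ_pi]
    constructor
    · intro h q
      split_ifs with hq
      · have := h hq.choose
        rwa [hq.choose_spec] at this
      · trivial
    · intro h t
      have h1 := h (j t)
      have hex : ∃ t', j t' = j t := ⟨t, rfl⟩
      rw [dif_pos hex] at h1
      have : hex.choose = t := hj hex.choose_spec
      rwa [this] at h1
  rw [this, Measure.pi_pi]
  have h2 : ∀ q, ν (if h : ∃ t, j t = q then s h.choose else Set.univ) =
      if h : ∃ t, j t = q then ν (s h.choose) else 1 := by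
    intro q
    split_ifs <;> simp
  simp only [h2]
  rw [← Finset.prod_subset (Finset.subset_univ (Finset.univ.image j))]
  · rw [Finset.prod_image (fun a _ b _ h => hj h)]
    apply Finset.prod_congr rfl
    intro t _
    have hex : ∃ t', j t' = j t := ⟨t, rfl⟩
    rw [dif_pos hex]
    have : hex.choose = t := hj hex.choose_spec
    rw [this]
  · intro q _ hq
    rw [dif_neg]
    rintro ⟨t, rfl⟩
    exact hq (Finset.mem_image_of_mem _ (Finset.mem_univ _))

/-- transfer of events depending on finitely many coordinates -/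
theorem transfer {G Q : Type} [Fintype Q] {B : Type} [MeasurableSpace B]
    (ν : Measure B) [IsProbabilityMeasure ν] (T : Finset G) (j : G → Q)
    (hj : Set.InjOn j T) (S : Set (G → B)) (hS : MeasurableSet S)
    (hdep : ∀ x y : G → B, (∀ t ∈ T, x t = y t) → x ∈ S → y ∈ S) :
    Measure.pi (fun _ : Q => ν) {ω | (fun g => ω (j g)) ∈ S} = bern G ν S := by
  classical
  have hne : Nonempty B := by
    by_contra h
    rw [not_nonempty_iff] at h
    have h1 : ν Set.univ = 0 := by
      rw [Set.univ_eq_empty_iff.2 h]; exact measure_empty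
    rw [measure_univ] at h1
    exact one_ne_zero h1
  obtain ⟨b0⟩ := hne
  let e : (T → B) → (G → B) := fun y g => if h : g ∈ T then y ⟨g, h⟩ else b0
  have he : Measurable e := by
    apply measurable_pi_lambda
    intro g
    by_cases h : g ∈ T
    · simp only [e, dif_pos h]
      exact measurable_pi_apply _
    · simp only [e, dif_neg h]
      exact measurable_const
  have hS' : MeasurableSet (e ⁻¹' S) := he hS
  have h1 : bern G ν S = Measure.pi (fun _ : T => ν) (e ⁻¹' S) := by
    have h2 : S = (Finset.restrict T) ⁻¹' (e ⁻¹' S) := by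
      ext x
      constructor
      · intro hx
        apply hdep x _ _ hx
        intro t ht
        simp [e, ht]
      · intro hx
        apply hdep _ x _ hx
        intro t ht
        simp [e, ht]
    have h3 : (bern G ν).map (Finset.restrict T) = Measure.pi (fun _ : T => ν) := by
      unfold bern
      exact Measure.infinitePi_map_restrict _
    rw [← h3, Measure.map_apply (Finset.measurable_restrict T) hS', ← h2]
  rw [h1, ← pi_map_inj (Q := Q) ν (fun t : T => j t) (fun a b h => Subtype.ext (hj a.2 b.2 h))]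
  rw [Measure.map_apply (measurable_pi_lambda _ fun t => measurable_pi_apply _) hS']
  congr 1
  ext ω
  simp only [Set.mem_ofPred_eq, Set.mem_preimage]
  constructor
  · intro hx
    apply hdep _ _ _ hx
    intro t ht
    simp [e, ht]
  · intro hx
    apply hdep _ _ _ hx
    intro t ht
    simp [e, ht]

/-- quantisation of `[0,1)` into `N` intervals -/
noncomputable def quant (N : ℕ) (t : ℝ) : ℕ := if 0 ≤ t ∧ t < 1 then ⌊(N : ℝ) * t⌋₊ else 0

theorem quant_lt {N : ℕ} (hN : 0 < N) (t : ℝ) : quant N t < N := by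
  unfold quant
  split_ifs with h
  · have hN' : (0 : ℝ) < N := by exact_mod_cast hN
    rw [Nat.floor_lt (by nlinarith [h.1])]
    nlinarith [h.2]
  · exact hN

theorem measurable_quant (N : ℕ) : Measurable (quant N) := by
  unfold quant
  apply Measurable.ite
  · have : {t : ℝ | 0 ≤ t ∧ t < 1} = Set.Ico 0 1 := rfl
    rw [this]; exact measurableSet_Ico
  · exact Nat.measurable_floor.comp (measurable_const.mul measurable_id)
  · exact measurable_const

theorem quant_meas {N : ℕ} (hN : 0 < N) (i : ℕ) :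
    nu0 {t | quant N t = i} ≤ ENNReal.ofReal (1 / N) := by
  have hN' : (0 : ℝ) < N := by exact_mod_cast hN
  have hsub : {t | quant N t = i} ∩ Set.Icc 0 1 ⊆
      Set.Ico ((i : ℝ) / N) ((i : ℝ) / N + 1 / N) ∪ {1} := by
    rintro t ⟨ht, ht2⟩
    rw [Set.mem_ofPred_eq] at ht
    rcases eq_or_lt_of_le ht2.2 with h1 | h1
    · right; exact h1
    · left
      unfold quant at ht
      rw [if_pos ⟨ht2.1, h1⟩, Nat.floor_eq_iff (by have := ht2.1; positivity)] at ht
      rw [Set.mem_Ico, div_le_iff₀ hN', ← add_div, lt_div_iff₀ hN']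
      constructor <;> nlinarith [ht.1, ht.2]
  unfold nu0
  have hmeas : MeasurableSet {t | quant N t = i} :=
    (measurable_quant N) (measurableSet_singleton i)
  rw [Measure.restrict_apply hmeas]
  calc volume ({t | quant N t = i} ∩ Set.Icc 0 1)
      ≤ volume (Set.Ico ((i : ℝ) / N) ((i : ℝ) / N + 1 / N) ∪ {1}) := measure_mono hsub
    _ ≤ volume (Set.Ico ((i : ℝ) / N) ((i : ℝ) / N + 1 / N)) + volume ({1} : Set ℝ) :=
        measure_union_le _ _
    _ = ENNReal.ofReal (1 / N) := by
        rw [Real.volume_Ico, Real.volume_singleton, add_zero]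
        congr 1
        ring

/-- the number of words close to a word of the form `Ψ a` -/
theorem card_good {Q A : Type} [Fintype Q] [DecidableEq Q] [Fintype A] (R : ℕ) (hR : 0 < R)
    (Ψ : (Q → A) → Q → Fin (R ^ 4)) (Bg : Finset (Q → Fin (R ^ 4)))
    (hB : ∀ b ∈ Bg, ∃ a : Q → A, 4 * Nat.card {q // b q ≠ Ψ a q} < Fintype.card Q) :
    Bg.card ≤ (Fintype.card A) ^ (Fintype.card Q) * (2 ^ (Fintype.card Q) * R ^ (Fintype.card Q)) := by
  classical
  set n := Fintype.card Q with hn
  have hsub : Bg ⊆ (Finset.univ : Finset (Q → A)).biUnion (fun a =>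
      (Finset.univ.filter (fun D : Finset Q => 4 * D.card < n)).biUnion
        (fun D => Finset.univ.filter (fun b : Q → Fin (R ^ 4) => ∀ q, q ∉ D → b q = Ψ a q))) := by
    intro b hb
    obtain ⟨a, ha⟩ := hB b hb
    rw [Finset.mem_biUnion]
    refine ⟨a, Finset.mem_univ _, ?_⟩
    rw [Finset.mem_biUnion]
    refine ⟨Finset.univ.filter (fun q => b q ≠ Ψ a q), ?_, ?_⟩
    · rw [Finset.mem_filter]
      refine ⟨Finset.mem_univ _, ?_⟩
      rwa [Nat.card_eq_fintype_card, Fintype.card_subtype] at ha
    · rw [Finset.mem_filter]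
      refine ⟨Finset.mem_univ _, ?_⟩
      intro q hq
      by_contra hcon
      exact hq (by simpa using hcon)
  have hball : ∀ (a : Q → A) (D : Finset Q), 4 * D.card < n →
      (Finset.univ.filter (fun b : Q → Fin (R ^ 4) => ∀ q, q ∉ D → b q = Ψ a q)).card ≤ R ^ n := by
    intro a D hD
    have h1 : (Finset.univ.filter (fun b : Q → Fin (R ^ 4) => ∀ q, q ∉ D → b q = Ψ a q)).card ≤
        (Finset.univ : Finset (D → Fin (R ^ 4))).card := by
      apply Finset.card_le_card_of_injOn (fun b (d : D) => b d)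
      · intro b _
        exact Finset.mem_coe.2 (Finset.mem_univ _)
      · intro b hb b' hb' hbb
        rw [Finset.mem_coe, Finset.mem_filter] at hb hb'
        funext q
        by_cases hq : q ∈ D
        · exact congrFun hbb ⟨q, hq⟩
        · rw [hb.2 q hq, hb'.2 q hq]
    refine h1.trans ?_
    rw [Finset.card_univ, Fintype.card_fun, Fintype.card_fin, Fintype.card_coe, ← pow_mul]
    exact Nat.pow_le_pow_right hR hD.le
  calc Bg.card ≤ _ := Finset.card_le_card hsub
    _ ≤ ∑ a : Q → A, ((Finset.univ.filter (fun D : Finset Q => 4 * D.card < n)).biUnion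
        (fun D => Finset.univ.filter
          (fun b : Q → Fin (R ^ 4) => ∀ q, q ∉ D → b q = Ψ a q))).card :=
        Finset.card_biUnion_le
    _ ≤ ∑ _a : Q → A, 2 ^ n * R ^ n := by
        apply Finset.sum_le_sum
        intro a _
        calc _ ≤ ∑ D ∈ Finset.univ.filter (fun D : Finset Q => 4 * D.card < n),
              (Finset.univ.filter
                (fun b : Q → Fin (R ^ 4) => ∀ q, q ∉ D → b q = Ψ a q)).card :=
              Finset.card_biUnion_le
          _ ≤ ∑ _D ∈ Finset.univ.filter (fun D : Finset Q => 4 * D.card < n), R ^ n := by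
              apply Finset.sum_le_sum
              intro D hD
              exact hball a D (Finset.mem_filter.1 hD).2
          _ ≤ 2 ^ n * R ^ n := by
              rw [Finset.sum_const, smul_eq_mul]
              apply Nat.mul_le_mul_right
              refine (Finset.card_filter_le _ _).trans ?_
              rw [Finset.card_univ, Fintype.card_finset]
    _ = (Fintype.card A) ^ n * (2 ^ n * R ^ n) := by
        rw [Finset.sum_const, Finset.card_univ, Fintype.card_fun, smul_eq_mul]

/-- **no finite generator.** -/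
theorem noGen {G : Type} [Group G] [Countable G]
    (hb : ∀ g : G, MeasurePreserving (shift g : (G → ℝ) → (G → ℝ)) (bern G nu0) (bern G nu0))
    (hres : ∀ F : Finset G, (∀ g ∈ F, g ≠ 1) →
      ∃ K : Subgroup G, K.Normal ∧ K.index ≠ 0 ∧ ∀ g ∈ F, g ∉ K)
    (A : Type) [Finite A] (α : (G → ℝ) → A) (hα : ∀ a, MeasurableSet {x | α x = a})
    (X0 : Set (G → ℝ)) (hX0 : MeasurableSet X0) (hX0' : bern G nu0 X0ᶜ = 0)
    (hinj : Set.InjOn (fun x (g : G) => α (shift g⁻¹ x)) X0) : False := by
  classical
  have := Fintype.ofFinite A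
  have : Nonempty A := ⟨α (fun _ => 0)⟩
  let _ : MeasurableSpace A := ⊤
  have hA0 : 0 < Fintype.card A := Fintype.card_pos
  set R : ℕ := 4 * Fintype.card A with hR
  have hR0 : 0 < R := by omega
  set N : ℕ := R ^ 4 with hN
  have hN0 : 0 < N := by positivity
  have : NeZero N := ⟨hN0.ne'⟩
  set m := bern G nu0 with hm
  let β : (G → ℝ) → Fin N := fun x => ⟨quant N (x 1), quant_lt hN0 _⟩
  have hβ : Measurable (fun x : G → ℝ => quant N (x 1)) :=
    (measurable_quant N).comp (measurable_pi_apply 1)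
  have hβ' : ∀ i, MeasurableSet {x | β x = i} := by
    intro i
    have : {x : G → ℝ | β x = i} = (fun x : G → ℝ => quant N (x 1)) ⁻¹' {(i : ℕ)} := by
      ext x
      simp [β, Fin.ext_iff]
    rw [this]
    exact hβ (measurableSet_singleton _)
  -- the coding map
  let Φ : (G → ℝ) → (G → A) := fun x g => α (shift g⁻¹ x)
  have hαm : Measurable α := by
    intro s _
    have : α ⁻¹' s = ⋃ a ∈ s, {x | α x = a} := by
      ext x; simp
    rw [this]
    exact MeasurableSet.biUnion (Set.to_countable s) (fun a _ => hα a)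
  have hΦ : Measurable Φ := by
    apply measurable_pi_lambda
    intro g
    exact hαm.comp (hb g⁻¹).measurable
  have : DiscreteMeasurableSpace A := ⟨fun _ => trivial⟩
  have : StandardBorelSpace A := by infer_instance
  have : StandardBorelSpace (G → A) := by infer_instance
  -- decoding
  obtain ⟨D, hD, hDΦ⟩ : ∃ D : (G → A) → Fin N, (∀ i, MeasurableSet {y | D y = i}) ∧
      ∀ x ∈ X0, D (Φ x) = β x := by
    have hE : ∀ i, MeasurableSet (Φ '' (X0 ∩ {x | β x = i})) := fun i =>
      (hX0.inter (hβ' i)).image_of_measurable_injOn hΦ (hinj.mono Set.inter_subset_left)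
    let D : (G → A) → Fin N := fun y =>
      if h : ∃ i, y ∈ Φ '' (X0 ∩ {x | β x = i}) then h.choose else 0
    have hval : ∀ y i, y ∈ Φ '' (X0 ∩ {x | β x = i}) → D y = i := by
      intro y i hy
      have hex : ∃ i, y ∈ Φ '' (X0 ∩ {x | β x = i}) := ⟨i, hy⟩
      simp only [D]
      rw [dif_pos hex]
      obtain ⟨x, hx, hxy⟩ := hy
      obtain ⟨x', hx', hxy'⟩ := hex.choose_spec
      have : x = x' := hinj hx.1 hx'.1 (hxy.trans hxy'.symm)
      rw [← hx'.2, ← hx.2, this]
    refine ⟨D, ?_, ?_⟩
    · intro i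
      have : {y | D y = i} = Φ '' (X0 ∩ {x | β x = i}) ∪
          (if i = 0 then (⋃ k, Φ '' (X0 ∩ {x | β x = k}))ᶜ else ∅) := by
        ext y
        constructor
        · intro hy
          by_cases hex : ∃ k, y ∈ Φ '' (X0 ∩ {x | β x = k})
          · obtain ⟨k, hk⟩ := hex
            left
            have := hval y k hk
            rw [Set.mem_ofPred_eq] at hy
            rwa [← hy, this]
          · right
            have h0 : D y = 0 := by
              simp only [D]
              rw [dif_neg hex]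
            rw [Set.mem_ofPred_eq] at hy
            rw [if_pos (hy.symm.trans h0), Set.mem_compl_iff, Set.mem_iUnion]
            exact hex
        · rintro (hy | hy)
          · exact hval y i hy
          · split_ifs at hy with hi
            · have hex : ¬ ∃ k, y ∈ Φ '' (X0 ∩ {x | β x = k}) := by
                rwa [Set.mem_compl_iff, Set.mem_iUnion] at hy
              rw [Set.mem_ofPred_eq, hi]
              simp only [D]
              rw [dif_neg hex]
            · exact absurd hy (Set.notMem_empty _)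
      rw [this]
      apply (hE i).union
      split_ifs
      · exact (MeasurableSet.iUnion hE).compl
      · exact MeasurableSet.empty
    · intro x hx
      exact hval _ _ ⟨x, ⟨hx, rfl⟩, rfl⟩
  -- approximate the decoding
  have hPm : IsProbabilityMeasure (m.map Φ) := Measure.isProbabilityMeasure_map hΦ.aemeasurable
  obtain ⟨W, ψ, hψW, hψm, hψ⟩ := approxFun (m.map Φ) D hD (1 / 16) (by simp)
  -- approximate the generator
  obtain ⟨V, α', hαV, hαm', hα'⟩ := approxFun m α hα (1 / (16 * (W.card + 1)))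
    (by simp [ENNReal.mul_eq_top])
  -- the local rule
  let Φ' : (G → ℝ) → (G → A) := fun x g => α' (shift g⁻¹ x)
  have hαm'' : Measurable α' := by
    intro s _
    have : α' ⁻¹' s = ⋃ a ∈ s, {x | α' x = a} := by
      ext x; simp
    rw [this]
    exact MeasurableSet.biUnion (Set.to_countable s) (fun a _ => hαm' a)
  have hΦ' : Measurable Φ' := by
    apply measurable_pi_lambda
    intro g
    exact hαm''.comp (hb g⁻¹).measurable
  have hψmeas : Measurable ψ := by
    intro s _
    have : ψ ⁻¹' s = ⋃ a ∈ s, {x | ψ x = a} := by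
      ext x; simp
    rw [this]
    exact MeasurableSet.biUnion (Set.to_countable s) (fun a _ => hψm a)
  have hβmeas : Measurable β := by
    intro s _
    have : β ⁻¹' s = ⋃ a ∈ s, {x | β x = a} := by
      ext x; simp
    rw [this]
    exact MeasurableSet.biUnion (Set.to_countable s) (fun a _ => hβ' a)
  let S : Set (G → ℝ) := {x | β x ≠ ψ (Φ' x)}
  have hS : MeasurableSet S := by
    have : S = (fun x => (β x, ψ (Φ' x))) ⁻¹' {p | p.1 ≠ p.2} := rfl
    rw [this]
    exact (hβmeas.prodMk (hψmeas.comp hΦ')) (Set.toFinite _).measurableSet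
  have hmS : m S ≤ 1 / 8 := by
    have hsub : S ⊆ (X0ᶜ ∪ Φ ⁻¹' {y | D y ≠ ψ y}) ∪ ⋃ w ∈ W, shift w⁻¹ ⁻¹' {x | α x ≠ α' x} := by
      intro x hx
      by_contra hcon
      simp only [Set.mem_union, not_or, Set.mem_compl_iff, not_not, Set.mem_preimage,
        Set.mem_ofPred_eq, Set.mem_iUnion, not_exists] at hcon
      obtain ⟨⟨h1, h2⟩, h3⟩ := hcon
      apply hx
      rw [← hDΦ x h1, h2]
      apply hψW
      intro w hw
      exact h3 w hw
    have hmeas1 : MeasurableSet {y | D y ≠ ψ y} := by
      have hDm : Measurable D := by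
        intro s _
        have : D ⁻¹' s = ⋃ a ∈ s, {x | D x = a} := by
          ext x; simp
        rw [this]
        exact MeasurableSet.biUnion (Set.to_countable s) (fun a _ => hD a)
      have : {y | D y ≠ ψ y} = (fun y => (D y, ψ y)) ⁻¹' {p | p.1 ≠ p.2} := rfl
      rw [this]
      exact (hDm.prodMk hψmeas) (Set.toFinite _).measurableSet
    have hmeas2 : MeasurableSet {x | α x ≠ α' x} := by
      have : {x | α x ≠ α' x} = (fun y => (α y, α' y)) ⁻¹' {p | p.1 ≠ p.2} := rfl
      rw [this]
      exact (hαm.prodMk hαm'') (Set.toFinite _).measurableSet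
    calc m S ≤ m ((X0ᶜ ∪ Φ ⁻¹' {y | D y ≠ ψ y}) ∪ ⋃ w ∈ W, shift w⁻¹ ⁻¹' {x | α x ≠ α' x}) :=
          measure_mono hsub
      _ ≤ (m X0ᶜ + m (Φ ⁻¹' {y | D y ≠ ψ y})) +
            ∑ w ∈ W, m (shift w⁻¹ ⁻¹' {x | α x ≠ α' x}) := by
          refine (measure_union_le _ _).trans ?_
          gcongr
          · exact measure_union_le _ _
          · exact measure_biUnion_finset_le _ _
      _ ≤ (0 + 1 / 16) + ∑ _w ∈ W, (1 : ℝ≥0∞) / (16 * (W.card + 1)) := by
          apply add_le_add
          · apply add_le_add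
            · exact hX0'.le
            · rw [← Measure.map_apply hΦ hmeas1]
              exact hψ
          · apply Finset.sum_le_sum
            intro w _
            rw [(hb w⁻¹).measure_preimage hmeas2.nullMeasurableSet]
            exact hα'
      _ ≤ 1 / 16 + 1 / 16 := by
          rw [zero_add]
          gcongr
          rw [Finset.sum_const, nsmul_eq_mul, mul_one_div]
          apply ENNReal.div_le_of_le_mul
          rw [one_div, ← mul_assoc, ENNReal.inv_mul_cancel (by simp) (by simp), one_mul]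
          exact le_self_add
      _ = 1 / 8 := by
          rw [ENNReal.div_add_div_same]
          have : (1 : ℝ≥0∞) + 1 = 2 := by norm_num
          rw [this]
          have : (16 : ℝ≥0∞) = 2 * 8 := by norm_num
          rw [this]
          rw [← ENNReal.mul_div_mul_left 1 8 (c := 2) (by simp) (by simp), mul_one]
  -- the finite set of coordinates
  let T : Finset G := insert 1 (Finset.image₂ (fun w v => w * v) W V)
  have hSdep : ∀ x y : G → ℝ, (∀ t ∈ T, x t = y t) → x ∈ S → y ∈ S := by
    intro x y hxy hx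
    have h1 : β y = β x := by
      simp only [β]
      rw [hxy 1 (Finset.mem_insert_self _ _)]
    have h2 : ψ (Φ' y) = ψ (Φ' x) := by
      apply hψW
      intro w hw
      apply hαV
      intro v hv
      simp only [shift, inv_inv]
      exact (hxy (w * v) (Finset.mem_insert_of_mem (Finset.mem_image₂_of_mem hw hv))).symm
    show β y ≠ ψ (Φ' y)
    rw [h1, h2]
    exact hx
  -- the finite quotient
  obtain ⟨K, hKn, hKi, hK⟩ := hres ((Finset.image₂ (fun s t => s⁻¹ * t) T T).erase 1)
    (fun g hg => (Finset.mem_erase.1 hg).1)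
  have : K.FiniteIndex := ⟨hKi⟩
  let Q := G ⧸ K
  have : Finite Q := Subgroup.finite_quotient_of_finiteIndex
  have := Fintype.ofFinite Q
  have hTinj : ∀ q : Q, Set.InjOn (fun g : G => q * (g : Q)) T := by
    intro q s hs t ht hst
    have h1 : (s : Q) = (t : Q) := mul_left_cancel hst
    rw [QuotientGroup.eq] at h1
    by_contra hne
    apply hK (s⁻¹ * t) _ h1
    rw [Finset.mem_erase]
    refine ⟨?_, Finset.mem_image₂_of_mem hs ht⟩
    intro h
    exact hne (inv_mul_eq_one.1 h)
  set P := Measure.pi (fun _ : Q => nu0) with hP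
  have : IsProbabilityMeasure P := by rw [hP]; infer_instance
  let xx : (Q → ℝ) → Q → (G → ℝ) := fun ω q g => ω (q * (g : Q))
  have hxx : ∀ q, Measurable (fun ω => xx ω q) := fun q =>
    measurable_pi_lambda _ fun g => measurable_pi_apply _
  let E : Q → Set (Q → ℝ) := fun q => {ω | xx ω q ∈ S}
  have hE : ∀ q, MeasurableSet (E q) := fun q => (hxx q) hS
  have hPE : ∀ q, P (E q) ≤ 1 / 8 := by
    intro q
    have := transfer (G := G) (Q := Q) nu0 T (fun g => q * (g : Q)) (hTinj q) S hS hSdep
    calc P (E q) = bern G nu0 S := this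
      _ ≤ 1 / 8 := hmS
  have hbad := markov P E hE (1 / 8) hPE
  let bb : (Q → ℝ) → (Q → Fin N) := fun ω q => ⟨quant N (ω q), quant_lt hN0 _⟩
  let aa : (Q → ℝ) → (Q → A) := fun ω q => α' (xx ω q)
  let Ψ : (Q → A) → Q → Fin N := fun a q => ψ (fun g => a (q * (g : Q)))
  have hrel : ∀ ω q, xx ω q ∈ S ↔ bb ω q ≠ Ψ (aa ω) q := by
    intro ω q
    have h1 : β (xx ω q) = bb ω q := by
      simp only [β, bb, xx]
      congr 2
      simp
    have h2 : ψ (Φ' (xx ω q)) = Ψ (aa ω) q := by
      simp only [Ψ, Φ', aa]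
      congr 1
      funext g
      congr 1
      funext k
      simp only [shift, xx, inv_inv, QuotientGroup.mk_mul, mul_assoc]
    show β (xx ω q) ≠ ψ (Φ' (xx ω q)) ↔ _
    rw [h1, h2]
  let Bg : Finset (Q → Fin N) := Finset.univ.filter
    (fun b => ∃ a : Q → A, 4 * Nat.card {q // b q ≠ Ψ a q} < Fintype.card Q)
  have hcard := card_good (Q := Q) (A := A) R hR0 Ψ Bg (fun b hb => (Finset.mem_filter.1 hb).2)
  have hgood : {ω : Q → ℝ | Fintype.card Q ≤ 4 * Nat.card {q // ω ∈ E q}}ᶜ ⊆
      ⋃ b ∈ Bg, {ω | bb ω = b} := by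
    intro ω hω
    simp only [Set.mem_compl_iff, Set.mem_ofPred_eq, not_le] at hω
    simp only [Set.mem_iUnion, Set.mem_ofPred_eq]
    refine ⟨bb ω, ?_, rfl⟩
    rw [Finset.mem_filter]
    refine ⟨Finset.mem_univ _, aa ω, ?_⟩
    have : {q // bb ω q ≠ Ψ (aa ω) q} = {q // ω ∈ E q} := by
      congr 1
      funext q
      exact propext (hrel ω q).symm
    rw [this]
    exact hω
  have hPb : ∀ b : Q → Fin N, P {ω | bb ω = b} ≤ ENNReal.ofReal (1 / N) ^ Fintype.card Q := by
    intro b
    have : {ω | bb ω = b} = Set.univ.pi (fun q => {t : ℝ | quant N t = (b q : ℕ)}) := by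
      ext ω
      simp only [Set.mem_ofPred_eq, Set.mem_univ_pi, bb, funext_iff, Fin.ext_iff]
    rw [this, hP, Measure.pi_pi, ← Finset.card_univ]
    exact Finset.prod_le_pow_card _ _ _ (fun q _ => quant_meas hN0 _)
  have hmeasBad : MeasurableSet {ω : Q → ℝ | Fintype.card Q ≤ 4 * Nat.card {q // ω ∈ E q}} := by
    have h1 : {ω : Q → ℝ | Fintype.card Q ≤ 4 * Nat.card {q // ω ∈ E q}} =
        (fun (ω : Q → ℝ) (q : Q) => ω ∈ E q) ⁻¹'
          {p : Q → Prop | Fintype.card Q ≤ 4 * Nat.card {q // p q}} := rfl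
    rw [h1]
    have h2 : Measurable (fun (ω : Q → ℝ) (q : Q) => ω ∈ E q) :=
      measurable_pi_lambda _ fun q => measurableSet_setOfPred.1 (hE q)
    exact h2 (Set.toFinite _).measurableSet
  have hfin : (1 : ℝ≥0∞) ≤ 4 * (1 / 8) + Bg.card * ENNReal.ofReal (1 / N) ^ Fintype.card Q := by
    calc (1 : ℝ≥0∞) = P Set.univ := measure_univ.symm
      _ = P {ω : Q → ℝ | Fintype.card Q ≤ 4 * Nat.card {q // ω ∈ E q}} +
          P {ω : Q → ℝ | Fintype.card Q ≤ 4 * Nat.card {q // ω ∈ E q}}ᶜ :=
          (measure_add_measure_compl hmeasBad).symm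
      _ ≤ 4 * (1 / 8) + P (⋃ b ∈ Bg, {ω | bb ω = b}) := by
          gcongr
      _ ≤ 4 * (1 / 8) + ∑ b ∈ Bg, P {ω | bb ω = b} := by
          gcongr
          exact measure_biUnion_finset_le _ _
      _ ≤ 4 * (1 / 8) + ∑ _b ∈ Bg, ENNReal.ofReal (1 / N) ^ Fintype.card Q := by
          gcongr with b _
          exact hPb b
      _ = _ := by rw [Finset.sum_const, nsmul_eq_mul]
  set n := Fintype.card Q with hn
  have hn1 : 1 ≤ n := Fintype.card_pos
  have hreal : (Bg.card : ℝ≥0∞) * ENNReal.ofReal (1 / N) ^ n ≤ ENNReal.ofReal (1 / 32) := by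
    rw [← ENNReal.ofReal_pow (by positivity), ← ENNReal.ofReal_natCast,
      ← ENNReal.ofReal_mul (by positivity)]
    apply ENNReal.ofReal_le_ofReal
    have hc : (Bg.card : ℝ) ≤ (Fintype.card A : ℝ) ^ n * (2 ^ n * (R : ℝ) ^ n) := by
      exact_mod_cast hcard
    have hNR : (N : ℝ) = (R : ℝ) ^ 4 := by rw [hN]; push_cast; ring
    have hRA : (R : ℝ) = 4 * (Fintype.card A : ℝ) := by rw [hR]; push_cast; ring
    have ha1 : (1 : ℝ) ≤ (Fintype.card A : ℝ) := by exact_mod_cast hA0
    set k : ℝ := (Fintype.card A : ℝ) with hk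
    have hkey : k * (2 * (R : ℝ)) * (1 / N) ≤ 1 / 32 := by
      rw [hNR, hRA]
      have : k * (2 * (4 * k)) * (1 / (4 * k) ^ 4) = 1 / (32 * k ^ 2) := by
        field_simp
        ring
      rw [this]
      apply one_div_le_one_div_of_le (by norm_num)
      nlinarith
    have hkey0 : 0 ≤ k * (2 * (R : ℝ)) * (1 / N) := by positivity
    calc (Bg.card : ℝ) * (1 / N) ^ n ≤ (k ^ n * (2 ^ n * (R : ℝ) ^ n)) * (1 / N) ^ n := by
          gcongr
      _ = (k * (2 * (R : ℝ)) * (1 / N)) ^ n := by
          rw [mul_pow, mul_pow, mul_pow]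
      _ ≤ (k * (2 * (R : ℝ)) * (1 / N)) ^ 1 :=
          pow_le_pow_of_le_one hkey0 (hkey.trans (by norm_num)) hn1
      _ ≤ 1 / 32 := by rw [pow_one]; exact hkey
  have h48 : (4 : ℝ≥0∞) * (1 / 8) = ENNReal.ofReal (1 / 2) := by
    rw [show (4 : ℝ≥0∞) = ENNReal.ofReal 4 by simp, show (1 / 8 : ℝ≥0∞) = ENNReal.ofReal (1 / 8) by
      rw [ENNReal.ofReal_div_of_pos (by norm_num)]; simp, ← ENNReal.ofReal_mul (by norm_num)]
    norm_num
  have hlast : (1 : ℝ≥0∞) ≤ ENNReal.ofReal (1 / 2 + 1 / 32) := by
    rw [ENNReal.ofReal_add (by norm_num) (by norm_num)]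
    calc (1 : ℝ≥0∞) ≤ 4 * (1 / 8) + Bg.card * ENNReal.ofReal (1 / N) ^ n := hfin
      _ ≤ _ := by rw [h48]; gcongr
  rw [← ENNReal.ofReal_one, ENNReal.ofReal_le_ofReal_iff (by norm_num)] at hlast
  norm_num at hlast

end Pool.Agent.H736.EN
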