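import Pool.Agent.H656.DC.EStmts

/-! # Cocycle superrigidity of Bernoulli shifts: assembly -/

set_option autoImplicit false

open MeasureTheory Filter Topology
open scoped ENNReal

namespace Pool.Agent.H736.EN

open Pool.Agent.H656.DC

section gen
variable {G : Type} [Group G]

theorem erg_factor {Z1 Z2 : Type} [MeasurableSpace Z1] [MeasurableSpace Z2]
    {m1 : Measure Z1} {m2 : Measure Z2} {act1 : G → Z1 → Z1} {act2 : G → Z2 → Z2}
    (π : Z1 → Z2) (hπ : MeasurePreserving π m1 m2) (hq : ∀ g z, π (act1 g z) = act2 g (π z))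
    (h : Erg G m1 act1) : Erg G m2 act2 := by
  intro A hA hinv
  have h1 : ∀ g : G, act1 g ⁻¹' (π ⁻¹' A) =ᵐ[m1] π ⁻¹' A := by
    intro g
    have h2 : act1 g ⁻¹' (π ⁻¹' A) = π ⁻¹' (act2 g ⁻¹' A) := by
      ext z
      simp only [Set.mem_preimage, hq]
    rw [h2]
    exact hπ.quasiMeasurePreserving.preimage_ae_eq (hinv g)
  rcases h (π ⁻¹' A) (hπ.measurable hA) h1 with h3 | h3
  · left
    rwa [hπ.measure_preimage hA.nullMeasurableSet] at h3
  · right
    rw [← Set.preimage_compl, hπ.measure_preimage hA.compl.nullMeasurableSet] at h3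
    exact h3

/-- measurable selection of group elements -/
theorem selG {X L : Type} [MeasurableSpace X] [Countable L] [Nonempty L] (P : L → X → Prop)
    (hex : ∀ x, ∃ h, P h x) (hP : ∀ h, MeasurableSet {x | P h x}) :
    ∃ s : X → L, (∀ h, MeasurableSet {x | s x = h}) ∧ ∀ x, P (s x) x := by
  classical
  obtain ⟨e, he⟩ := exists_surjective_nat L
  have hex' : ∀ x, ∃ n, P (e n) x := by
    intro x
    obtain ⟨h, hh⟩ := hex x
    obtain ⟨n, rfl⟩ := he h
    exact ⟨n, hh⟩
  refine ⟨fun x => e (Nat.find (hex' x)), ?_, fun x => Nat.find_spec (hex' x)⟩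
  intro h
  have hn : ∀ n, MeasurableSet {x | Nat.find (hex' x) = n} := by
    intro n
    have : {x | Nat.find (hex' x) = n} = {x | P (e n) x} ∩ ⋂ m ∈ Finset.range n, {x | P (e m) x}ᶜ := by
      ext x
      simp [Nat.find_eq_iff]
    rw [this]
    exact (hP _).inter (Finset.measurableSet_biInter _ fun m _ => (hP _).compl)
  have : {x | e (Nat.find (hex' x)) = h} = ⋃ n ∈ {n | e n = h}, {x | Nat.find (hex' x) = n} := by
    ext x
    simp
  rw [this]
  exact MeasurableSet.biUnion (Set.to_countable _) fun n _ => hn n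

end gen

/-- `f⁻¹{l}` measurable for all `l` in a countable set -/
theorem measSet_of_fibres {X L : Type} [MeasurableSpace X] [Countable L] (f : X → L)
    (hf : ∀ l, MeasurableSet {x | f x = l}) (s : Set L) : MeasurableSet {x | f x ∈ s} := by
  have : {x | f x ∈ s} = ⋃ l ∈ s, {x | f x = l} := by
    ext x; simp
  rw [this]
  exact MeasurableSet.biUnion (Set.to_countable _) fun l _ => hf l

/-- **Popa's cocycle superrigidity theorem** for Bernoulli shifts over `[0,1]` of (T) groups and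
countable targets. -/
theorem popa (hb : S_bernPMP) (hm : S_mix) (hmE : S_mixErg) (hpB : S_prodBern) (hi : S_interp)
    (hc : S_cont) (hT2 : S_T2) (hsp : S_split)
    (G : Type) [Group G] [Countable G] [Infinite G] (S : Finset G) (C : ℝ) (hT : HasTC G S C)
    (L : Type) [Group L] [Countable L] (a : G → (G → ℝ) → L) (ha : Coc shift a) :
    ∃ (ρ : G →* L) (φ : (G → ℝ) → L), (∀ l, MeasurableSet {x | φ x = l}) ∧
      ∀ g, ∀ᵐ x ∂(bern G nu0), a g x = φ (shift g x) * ρ g * (φ x)⁻¹ := by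
  classical
  obtain ⟨ε, hε, hT2'⟩ := hT2 G S C hT
  -- uniform continuity
  have h1 : ∀ s : G, ∃ δ : ℝ, 0 < δ ∧ ∀ t t' : ℝ, |t - t'| ≤ δ →
      (bern G nu3).real {z | a s (interp t z) ≠ a s (interp t' z)} ≤ ε :=
    fun s => hc G L (a s) (ha.meas s) ε hε
  choose δ0 hδ0 hδ0' using h1
  obtain ⟨δ, hδ, hδS⟩ : ∃ δ : ℝ, 0 < δ ∧ ∀ s ∈ S, δ ≤ δ0 s := by
    rcases S.eq_empty_or_nonempty with h | h
    · exact ⟨1, one_pos, by simp [h]⟩
    · refine ⟨S.inf' h δ0, ?_, fun s hs => Finset.inf'_le _ hs⟩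
      rw [Finset.lt_inf'_iff]
      exact fun s _ => hδ0 s
  -- cohomology relation
  let Coh : ℝ → ℝ → Prop := fun t t' => ∃ Φ : (G → ℝ × ℝ × ℝ) → L,
    (∀ l, MeasurableSet {z | Φ z = l}) ∧
      ∀ g, ∀ᵐ z ∂(bern G nu3), a g (interp t z) * Φ z = Φ (shift g z) * a g (interp t' z)
  have hcocs : ∀ t : ℝ, Coc (shift : G → (G → ℝ × ℝ × ℝ) → _) (fun g z => a g (interp t z)) := by
    intro t
    constructor
    · intro g l
      exact ((hi G).1 t).measurable (ha.meas g l)
    · intro g h x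
      simp only [interp_shift]
      exact ha.coc g h _
  have hP3 := hb G (ℝ × ℝ × ℝ) nu3
  have hE3 : Erg G (bern G nu3) (shift : G → (G → ℝ × ℝ × ℝ) → _) :=
    hmE G _ _ _ hP3 (hm G _ nu3)
  have hstep : ∀ t t' : ℝ, |t - t'| ≤ δ → Coh t t' := by
    intro t t' htt
    exact hT2' _ (bern G nu3) shift hP3 hE3 L _ _ (hcocs t) (hcocs t')
      (fun s hs => hδ0' s t t' (htt.trans (hδS s hs)))
  have hrefl : ∀ t, Coh t t := fun t => hstep t t (by simp [hδ.le])
  have htrans : ∀ t t' t'', Coh t t' → Coh t' t'' → Coh t t'' := by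
    rintro t t' t'' ⟨Φ, hΦ, hΦ'⟩ ⟨Ψ, hΨ, hΨ'⟩
    refine ⟨fun z => Φ z * Ψ z, ?_, ?_⟩
    · intro l
      have : {z | Φ z * Ψ z = l} = ⋃ u : L, ({z | Φ z = u} ∩ {z | Ψ z = u⁻¹ * l}) := by
        ext z
        simp only [Set.mem_ofPred_eq, Set.mem_iUnion, Set.mem_inter_iff]
        constructor
        · intro h; exact ⟨Φ z, rfl, by rw [← h]; group⟩
        · rintro ⟨u, h1, h2⟩; rw [h1, h2]; group
      rw [this]
      exact MeasurableSet.iUnion fun u => (hΦ u).inter (hΨ _)
    · intro g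
      filter_upwards [hΦ' g, hΨ' g] with z h1 h2
      rw [← mul_assoc, h1, mul_assoc, h2, mul_assoc]
  have hchain : ∀ k : ℕ, ∀ t : ℝ, Coh t (t + k * δ) := by
    intro k
    induction k with
    | zero => intro t; simpa using hrefl t
    | succ k ih =>
      intro t
      apply htrans _ _ _ (ih t)
      apply hstep
      push_cast
      have : t + k * δ - (t + (k + 1) * δ) = -δ := by ring
      rw [this, abs_neg, abs_of_pos hδ]
  have h01 : Coh 0 1 := by
    obtain ⟨k, hk⟩ := exists_nat_gt (1 / δ)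
    have hk' : (k : ℝ) * δ ≤ 1 + k * δ := by linarith
    -- go up to the largest multiple below one
    set n := ⌊1 / δ⌋₊ with hn
    have hn1 : (n : ℝ) * δ ≤ 1 := by
      have := Nat.floor_le (show 0 ≤ 1 / δ by positivity)
      rw [← hn] at this
      rwa [le_div_iff₀ hδ] at this
    have hn2 : 1 < ((n : ℝ) + 1) * δ := by
      have := Nat.lt_floor_add_one (1 / δ)
      rw [← hn] at this
      rwa [div_lt_iff₀ hδ] at this
    apply htrans _ _ _ (hchain n 0)
    apply hstep
    rw [zero_add, abs_sub_comm, abs_of_nonneg (by linarith)]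
    linarith
  obtain ⟨Φ, hΦ, hΦ'⟩ := h01
  -- spaces
  set μ := bern G nu0 with hμ
  set κ := bern G (nu0.prod nu0) with hκ
  have hι : MeasurePreserving (fun z : G → ℝ × (ℝ × ℝ) => ((fun g => (z g).1), (fun g => (z g).2)))
      (bern G nu3) (μ.prod κ) := hpB G ℝ (ℝ × ℝ) nu0 (nu0.prod nu0)
  let j : (G → ℝ) × (G → ℝ × ℝ) → (G → ℝ × (ℝ × ℝ)) := fun q g => (q.1 g, q.2 g)
  let e : (G → ℝ × (ℝ × ℝ)) ≃ᵐ (G → ℝ) × (G → ℝ × ℝ) :=
    { toFun := fun z => ((fun g => (z g).1), (fun g => (z g).2))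
      invFun := j
      left_inv := fun z => rfl
      right_inv := fun q => rfl
      measurable_toFun := hι.measurable
      measurable_invFun := by
        apply measurable_pi_lambda
        intro g
        exact ((measurable_pi_apply g).comp measurable_fst).prodMk
          ((measurable_pi_apply g).comp measurable_snd) }
  have hj : MeasurePreserving j (μ.prod κ) (bern G nu3) := MeasurePreserving.symm e hι
  let b : G → (G → ℝ × ℝ) → L := fun g w => a g (fun h => (w h).1)
  have hfst : MeasurePreserving (fun (w : G → ℝ × ℝ) (h : G) => (w h).1) κ μ := by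
    have h2 := hpB G ℝ ℝ nu0 nu0
    exact (measurePreserving_fst (μ := μ) (ν := μ)).comp h2
  have hcb : Coc (shift : G → (G → ℝ × ℝ) → _) b := by
    constructor
    · intro g l
      exact hfst.measurable (ha.meas g l)
    · intro g h w
      exact ha.coc g h _
  have hPμ : PMP G μ shift := hb G ℝ nu0
  have hPκ : PMP G κ shift := hb G (ℝ × ℝ) (nu0.prod nu0)
  -- ergodicity of the product
  have hErg : Erg G ((μ.prod μ).prod (κ.prod κ))
      (fun g q => ((shift g q.1.1, shift g q.1.2), (shift g q.2.1, shift g q.2.2))) := by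
    have e1 := hpB G (ℝ × ℝ) ((ℝ × ℝ) × (ℝ × ℝ)) (nu0.prod nu0)
      ((nu0.prod nu0).prod (nu0.prod nu0))
    have e2 := hpB G ℝ ℝ nu0 nu0
    have e3 := hpB G (ℝ × ℝ) (ℝ × ℝ) (nu0.prod nu0) (nu0.prod nu0)
    have e4 := (e2.prod e3).comp e1
    refine erg_factor _ e4 ?_ (hmE G _ _ _ (hb G _ _) (hm G _ _))
    intro g z
    rfl
  have hΦj : ∀ g, ∀ᵐ q ∂(μ.prod κ),
      a g q.1 * Φ (j q) = Φ (j (shift g q.1, shift g q.2)) * b g q.2 := by
    intro g
    have h2 : ∀ᵐ z ∂(bern G nu3), a g (fun h => (z h).1) * Φ z =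
        Φ (shift g z) * a g (fun h => (z h).2.1) := by
      filter_upwards [hΦ' g, (hi G).2.1, (hi G).2.2] with z h3 h4 h5
      rwa [h4, h5] at h3
    exact hj.quasiMeasurePreserving.ae h2
  exact hsp G (G → ℝ) (G → ℝ × ℝ) μ κ shift shift hPμ hPκ hErg L a b ha hcb (fun q => Φ (j q))
    (fun l => hj.measurable (hΦ l)) hΦj

end Pool.Agent.H736.EN
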