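import Pool.Agent.H656.DC.GStmts
import Pool.Agent.H736.EN.Popa

/-! # Reductions of the Bernoulli shift of the final group -/

set_option autoImplicit false

open MeasureTheory Filter Topology
open scoped ENNReal

namespace Pool.Agent.H736.EN

open Pool.Agent.H656.DC

/-- a Borel reduction of the shift on `[0,1]^G` (really `ℝ^G`) to the orbit relation of an action -/
structure Red (G : Type) [Group G] (Y : Type) [MeasurableSpace Y] [MulAction G Y]
    (f : (G → ℝ) → Y) : Prop where
  meas : Measurable f
  hom : ∀ (g : G) (x : G → ℝ), ∃ h : G, f (shift g x) = h • f x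
  red : ∀ x x' : G → ℝ, (∃ h : G, f x' = h • f x) → ∃ g : G, x' = shift g x

section
variable {G : Type} [Group G] [Countable G] {Y : Type} [MeasurableSpace Y] [MulAction G Y]
  {f : (G → ℝ) → Y}

/-- the orbit of a point is null -/
theorem orbit_null (hfree : S_free) (x : G → ℝ) : bern G nu0 {x' | ∃ g : G, x' = shift g x} = 0 := by
  have : {x' | ∃ g : G, x' = shift g x} = ⋃ g : G, {shift g x} := by
    ext x'
    simp [eq_comm]
  rw [this, measure_iUnion_null_iff]
  intro g
  exact (hfree G).1 _

/-- equivariant-up-to-orbit maps have no atoms -/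
theorem no_atom (hfree : S_free) (hf : Red G Y f) (f' : (G → ℝ) → Y)
    (hf' : ∀ x, ∃ h : G, f' x = h • f x) (y : Y) : bern G nu0 (f' ⁻¹' {y}) = 0 := by
  rcases (f' ⁻¹' {y}).eq_empty_or_nonempty with h | ⟨x, hx⟩
  · rw [h]; exact measure_empty
  · apply measure_mono_null _ (orbit_null hfree x)
    intro x' hx'
    apply hf.red
    obtain ⟨h, hh⟩ := hf' x
    obtain ⟨h', hh'⟩ := hf' x'
    rw [Set.mem_preimage, Set.mem_singleton_iff] at hx hx'
    refine ⟨h'⁻¹ * h, ?_⟩
    rw [mul_smul, ← hh, hx, ← hx', hh', inv_smul_smul]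

/-- measurability of `h(x) • f x` -/
theorem meas_smul (hact : ∀ g : G, Measurable (fun y : Y => g • y)) (hf : Measurable f)
    (s : (G → ℝ) → G) (hs : ∀ h, MeasurableSet {x | s x = h}) :
    Measurable (fun x => s x • f x) := by
  intro B hB
  have : (fun x => s x • f x) ⁻¹' B = ⋃ h : G, ({x | s x = h} ∩ (fun x => h • f x) ⁻¹' B) := by
    ext x
    simp only [Set.mem_preimage, Set.mem_iUnion, Set.mem_inter_iff, Set.mem_ofPred_eq]
    constructor
    · intro h; exact ⟨s x, rfl, h⟩
    · rintro ⟨h, h1, h2⟩; rwa [h1]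
  rw [this]
  exact MeasurableSet.iUnion fun h => (hs h).inter (((hact h).comp hf) hB)

omit [Countable G] in
theorem measSet_eq [StandardBorelSpace Y] (hact : ∀ g : G, Measurable (fun y : Y => g • y))
    (hf : Measurable f) (g h : G) : MeasurableSet {x | g • f x = h • f x} :=
  measurableSet_eq_fun ((hact g).comp hf) ((hact h).comp hf)

/-- conjugation of subgroups -/
def cj (g : G) (d : Subgroup G) : Subgroup G := d.map (MulAut.conj g).toMonoidHom

omit [Countable G] in
theorem mem_cj {g k : G} {d : Subgroup G} : k ∈ cj g d ↔ g⁻¹ * k * g ∈ d := by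
  unfold cj
  rw [Subgroup.mem_map]
  constructor
  · rintro ⟨x, hx, rfl⟩
    simpa [mul_assoc] using hx
  · intro h
    exact ⟨_, h, by simp [mul_assoc]⟩

omit [Countable G] in
theorem cj_one (d : Subgroup G) : cj 1 d = d := by
  ext k; rw [mem_cj]; simp

omit [Countable G] in
theorem cj_mul (g h : G) (d : Subgroup G) : cj (g * h) d = cj g (cj h d) := by
  ext k; rw [mem_cj, mem_cj, mem_cj]; simp [mul_assoc]

omit [Countable G] [MeasurableSpace Y] in
theorem cj_stab (g : G) (y : Y) : MulAction.stabilizer G (g • y) = cj g (MulAction.stabilizer G y) :=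
  MulAction.stabilizer_smul_eq_stabilizer_map_conj g y

omit [Countable G] in
theorem cj_sup_normal (g : G) (d K : Subgroup G) (hK : K.Normal) : cj g (d ⊔ K) = cj g d ⊔ K := by
  have h1 : cj g K = K := by
    ext k
    rw [mem_cj]
    constructor
    · intro h
      have := hK.conj_mem _ h g
      simpa [mul_assoc] using this
    · intro h
      have := hK.conj_mem _ h g⁻¹
      simpa using this
  have h2 : cj g (d ⊔ K) = cj g d ⊔ cj g K := Subgroup.map_sup _ _ _
  rw [h2, h1]

omit [Countable G] in
theorem cj_iInf (g : G) (d : ℕ → Subgroup G) : cj g (⨅ n, d n) = ⨅ n, cj g (d n) := by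
  ext k
  rw [mem_cj, Subgroup.mem_iInf, Subgroup.mem_iInf]
  simp only [mem_cj]

omit [Countable G] in
theorem cj_index (g : G) (d : Subgroup G) : (cj g d).index = d.index :=
  Subgroup.index_map_equiv d (MulAut.conj g)

end

/-- **Superrigidity for reductions of the Bernoulli shift.** -/
theorem sr (hfree : S_free) (hb : S_bernPMP) (hm : S_mix) (hmE : S_mixErg) (hpB : S_prodBern)
    (hi : S_interp) (hc : S_cont) (hT2 : S_T2) (hsp : S_split) (hconst : S_const) (hL1 : S_L1)
    (hseq : S_seq) (hdense : S_dense) (hnorm : S_norm)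
    (p : ℕ) [Fact p.Prime] (G : Type) [Group G] [Countable G] (hG : RTM p G)
    (S : Finset G) (C : ℝ) (hT : HasTC G S C)
    (Y : Type) [MeasurableSpace Y] [StandardBorelSpace Y] [MulAction G Y]
    (hact : ∀ g : G, Measurable (fun y : Y => g • y)) (f : (G → ℝ) → Y) (hf : Red G Y f) :
    ∃ (ρ : G →* G) (f' : (G → ℝ) → Y) (X0 : Set (G → ℝ)), Function.Injective ρ ∧
      ρ.range.index ≠ 0 ∧ Measurable f' ∧ (∀ x, ∃ h : G, f' x = h • f x) ∧ MeasurableSet X0 ∧
      bern G nu0 X0ᶜ = 0 ∧ Set.InjOn f' X0 ∧
      ∀ x ∈ X0, ∀ g : G, f' (shift g x) = ρ g • f' x := by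
  classical
  have hinf : Infinite G := hG.inf
  set μ := bern G nu0 with hμ
  have hP : PMP G μ (shift : G → (G → ℝ) → _) := hb G ℝ nu0
  have hErg : Erg G μ (shift : G → (G → ℝ) → _) := hmE G _ _ _ hP (hm G ℝ nu0)
  -- the cocycle
  obtain ⟨lam, hlam, hlam'⟩ : ∃ lam : G → (G → ℝ) → G, (∀ g h, MeasurableSet {x | lam g x = h}) ∧
      ∀ g x, f (shift g x) = lam g x • f x := by
    have : ∀ g : G, ∃ s : (G → ℝ) → G, (∀ h, MeasurableSet {x | s x = h}) ∧
        ∀ x, f (shift g x) = s x • f x := by
      intro g
      apply selG (fun h x => f (shift g x) = h • f x) (hf.hom g)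
      intro h
      exact measurableSet_eq_fun (hf.meas.comp (hP.mp g).measurable) ((hact h).comp hf.meas)
    choose lam h1 h2 using this
    exact ⟨lam, h1, h2⟩
  have hfinor := hG.fin_or
  -- Step 0: infinite orbits
  have hstep0 : ∀ᵐ x ∂μ, (MulAction.stabilizer G (f x)).index = 0 := by
    set B : Set (G → ℝ) := {x | ∃ F : Finset G, ∀ g : G, ∃ h ∈ F, g • f x = h • f x} with hB
    have hBm : MeasurableSet B := by
      have : B = ⋃ F : Finset G, ⋂ g : G, ⋃ h ∈ F, {x | g • f x = h • f x} := by
        ext x
        simp [hB]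
      rw [this]
      exact MeasurableSet.iUnion fun F => MeasurableSet.iInter fun g =>
        Finset.measurableSet_biUnion _ fun h _ => measSet_eq hact hf.meas g h
    have hBinv : ∀ (g : G) (x : G → ℝ), x ∈ B → shift g x ∈ B := by
      rintro g x ⟨F, hF⟩
      refine ⟨F.image (fun h => h * (lam g x)⁻¹), ?_⟩
      intro k
      obtain ⟨h, hh, hk⟩ := hF (k * lam g x)
      refine ⟨h * (lam g x)⁻¹, Finset.mem_image_of_mem _ hh, ?_⟩
      rw [hlam', ← mul_smul, ← mul_smul, inv_mul_cancel_right]
      exact hk
    have hBinv' : ∀ g : G, shift g ⁻¹' B =ᵐ[μ] B := by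
      intro g
      have : shift g ⁻¹' B = B := by
        ext x
        constructor
        · intro hx
          have := hBinv g⁻¹ _ hx
          rwa [← shift_mul, inv_mul_cancel, shift_one] at this
        · exact hBinv g x
      exact Filter.EventuallyEq.of_eq this
    have hindex : ∀ x, (MulAction.stabilizer G (f x)).index ≠ 0 → x ∈ B := by
      intro x hx
      have : (MulAction.stabilizer G (f x)).FiniteIndex := ⟨hx⟩
      have hfin : Finite (G ⧸ MulAction.stabilizer G (f x)) :=
        Subgroup.finite_quotient_of_finiteIndex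
      have := Fintype.ofFinite (G ⧸ MulAction.stabilizer G (f x))
      refine ⟨Finset.univ.image (fun q : G ⧸ MulAction.stabilizer G (f x) => q.out), ?_⟩
      intro g
      refine ⟨_, Finset.mem_image_of_mem _ (Finset.mem_univ (g : G ⧸ MulAction.stabilizer G (f x))),
        ?_⟩
      have h1 : ((Quotient.out (g : G ⧸ MulAction.stabilizer G (f x)) : G) :
        G ⧸ MulAction.stabilizer G (f x)) = g := Quotient.out_eq' _
      rw [QuotientGroup.eq] at h1
      have h2 : (Quotient.out (g : G ⧸ MulAction.stabilizer G (f x)) : G)⁻¹ • g • f x = f x := by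
        rw [← mul_smul]; exact h1
      rw [inv_smul_eq_iff] at h2
      exact h2
    rcases hErg B hBm hBinv' with h0 | h0
    · rw [ae_iff]
      exact measure_mono_null (fun x hx => hindex x hx) h0
    · exfalso
      let e := embeddingReal Y
      have he : MeasurableEmbedding e := measurableEmbedding_embeddingReal Y
      let r : (G → ℝ) → ℝ := fun x => ⨅ g : G, e (g • f x)
      have hr : Measurable r := Measurable.iInf fun g => he.measurable.comp ((hact g).comp hf.meas)
      have hrinv : ∀ g x, r (shift g x) = r x := by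
        intro g x
        simp only [r, hlam']
        have : ∀ k : G, e (k • lam g x • f x) = e ((k * lam g x) • f x) := by
          intro k; rw [mul_smul]
        simp only [this]
        exact (Equiv.mulRight (lam g x)).iInf_congr (fun _ => rfl)
      let triv : MulAction G ℝ :=
        { smul := fun _ y => y, one_smul := fun _ => rfl, mul_smul := fun _ _ _ => rfl }
      obtain ⟨c, hc0⟩ := @hL1 G _ _ _ S C hT ℝ _ _ triv (fun _ => measurable_id) r
        (fun _ _ => 1) ⊥ hr (fun g h => MeasurableSet.const _)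
        (fun A hA hA' => by
          rw [le_bot_iff] at hA'
          subst hA'
          infer_instance)
        (fun g _ => Eventually.of_forall fun x => ⟨hrinv g x, Subgroup.one_mem _⟩)
      have hpos : 0 < μ (B ∩ r ⁻¹' {c}) := by
        have h1 : μ (r ⁻¹' {c}) ≤ μ (B ∩ r ⁻¹' {c}) + μ Bᶜ := by
          refine (measure_mono ?_).trans (measure_union_le _ _)
          intro x hx
          by_cases hxB : x ∈ B
          · left; exact ⟨hxB, hx⟩
          · right; exact hxB
        rw [h0, add_zero] at h1
        exact lt_of_lt_of_le hc0 h1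
      have hatt : ∀ x ∈ B, ∃ g : G, e (g • f x) = r x := by
        rintro x ⟨F, hF⟩
        have hrange : (Set.range fun g : G => e (g • f x)).Finite := by
          apply ((F.image (fun h => e (h • f x))).finite_toSet).subset
          rintro _ ⟨g, rfl⟩
          obtain ⟨h, hh, hk⟩ := hF g
          rw [Finset.mem_coe, Finset.mem_image]
          exact ⟨h, hh, by show e (h • f x) = e (g • f x); rw [hk]⟩
        have hne : (Set.range fun g : G => e (g • f x)).Nonempty := Set.range_nonempty _
        have := hne.csInf_mem hrange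
        obtain ⟨g, hg⟩ := this
        exact ⟨g, hg⟩
      obtain ⟨x, hx⟩ : (B ∩ r ⁻¹' {c}).Nonempty := nonempty_of_measure_ne_zero hpos.ne'
      apply hpos.ne'
      apply measure_mono_null _ (orbit_null hfree x)
      intro x' hx'
      apply hf.red
      obtain ⟨g, hg⟩ := hatt x hx.1
      obtain ⟨g', hg'⟩ := hatt x' hx'.1
      have h1 : e (g • f x) = e (g' • f x') := by
        rw [hg, hg']
        exact hx.2.trans hx'.2.symm
      have h2 := he.injective h1
      exact ⟨g'⁻¹ * g, by rw [mul_smul, h2, inv_smul_smul]⟩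
  -- f.g. subgroups of a subgroup of infinite index are finite
  have hlocfin : ∀ L : Subgroup G, L.index = 0 → LocFin L := by
    intro L hL A hA hAL
    rcases hfinor A hA with h | h
    · exact h
    · exfalso
      apply h
      have := Subgroup.relIndex_mul_index hAL
      rw [hL, mul_zero] at this
      exact this.symm
  -- Step A: the profinite invariants
  obtain ⟨K, hKanti, hKn, hKcof⟩ := hseq p G hG.fg
  let q : ℕ → (G → ℝ) → Subgroup G := fun n x => MulAction.stabilizer G (f x) ⊔ K n
  have hqmem : ∀ n x g, g ∈ q n x ↔ ∃ z : K n, (g * (z : G)⁻¹) • f x = f x := by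
    intro n x g
    have := (hKn n).1
    simp only [q]
    constructor
    · intro h
      rw [Subgroup.mem_sup_of_normal_right] at h
      obtain ⟨y, hy, z, hz, rfl⟩ := h
      refine ⟨⟨z, hz⟩, ?_⟩
      simpa using hy
    · rintro ⟨z, hz⟩
      rw [Subgroup.mem_sup_of_normal_right]
      exact ⟨_, hz, z, z.2, by simp⟩
  have hqmeas : ∀ n d, MeasurableSet {x | q n x = d} := by
    intro n d
    have h1 : ∀ g, MeasurableSet {x | g ∈ q n x} := by
      intro g
      have : {x | g ∈ q n x} = ⋃ z : K n, {x | (g * (z : G)⁻¹) • f x = f x} := by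
        ext x
        rw [Set.mem_ofPred_eq, hqmem]
        simp
      rw [this]
      refine MeasurableSet.iUnion fun z => ?_
      have := measSet_eq hact hf.meas (g * (z : G)⁻¹) 1
      simpa using this
    have : {x | q n x = d} = ⋂ g : G, if g ∈ d then {x | g ∈ q n x} else {x | g ∈ q n x}ᶜ := by
      ext x
      rw [Set.mem_ofPred_eq, Set.mem_iInter, SetLike.ext_iff]
      refine forall_congr' fun g => ?_
      split_ifs with hg
      · simp [hg]
      · simp [hg]
    rw [this]
    refine MeasurableSet.iInter fun g => ?_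
    split_ifs
    · exact h1 g
    · exact (h1 g).compl
  have hqcj : ∀ n g x, q n (shift g x) = cj (lam g x) (q n x) := by
    intro n g x
    simp only [q]
    rw [hlam', cj_stab, cj_sup_normal _ _ _ (hKn n).1]
  have hqfin : ∀ n, (Set.range (q n)).Finite := by
    intro n
    have := (hKn n).1
    obtain ⟨k, hk⟩ := (hKn n).2
    have hp : 0 < p := (Fact.out : p.Prime).pos
    have : (K n).FiniteIndex := ⟨by rw [hk]; positivity⟩
    have : Finite (G ⧸ K n) := Subgroup.finite_quotient_of_finiteIndex
    have hfin : Finite (Subgroup (G ⧸ K n)) := by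
      exact Finite.of_injective (fun H : Subgroup (G ⧸ K n) => (H : Set (G ⧸ K n)))
        SetLike.coe_injective
    have h2 : Finite {H : Subgroup G // K n ≤ H} :=
      Finite.of_equiv _ (QuotientGroup.comapMk'OrderIso (K n)).toEquiv
    have h3 : {H : Subgroup G | K n ≤ H}.Finite := Set.finite_coe_iff.1 h2
    apply h3.subset
    rintro _ ⟨x, rfl⟩
    show K n ≤ q n x
    exact le_sup_right
  obtain ⟨x0, hx0⟩ := hconst G S C hT (Subgroup G) cj cj_one cj_mul q lam hqfin hqmeas hlam hqcj (by
    intro n x x' h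
    have h1 : ∀ x, q n x = q (n + 1) x ⊔ K n := by
      intro x
      simp only [q]
      rw [sup_assoc, sup_eq_right.2 (hKanti (Nat.le_succ n))]
    rw [h1, h1, h])
  -- Step B
  set U0 : Subgroup G := ⨅ n, q n x0 with hU0
  have hUae : ∀ᵐ x ∂μ, ∃ γ : G, (⨅ n, q n x) = cj γ U0 := by
    filter_upwards [hx0] with x hx
    obtain ⟨γ, hγ⟩ := hx
    exact ⟨γ, by rw [hU0, cj_iInf]; exact iInf_congr hγ⟩
  have hU0i : U0.index = 0 := by
    obtain ⟨x, ⟨γ, hγ⟩, hx⟩ := (hUae.and hstep0).exists
    rw [← cj_index γ U0, ← hγ]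
    exact hdense p G hG K hKanti hKn hKcof _ (hlocfin _ hx)
  have hstab : ∀ᵐ x ∂μ, MulAction.stabilizer G (f x) = ⊥ := by
    by_cases hU : U0 = ⊥
    · filter_upwards [hUae] with x hx
      obtain ⟨γ, hγ⟩ := hx
      rw [hU] at hγ
      have h1 : cj γ (⊥ : Subgroup G) = ⊥ := Subgroup.map_bot _
      rw [h1] at hγ
      rw [← le_bot_iff, ← hγ]
      exact le_iInf fun n => le_sup_left
    · exfalso
      have hN := hnorm p G hG U0 hU (hlocfin _ hU0i)
      set N := Subgroup.normalizer (U0 : Set G) with hNdef
      have hNl := hlocfin N hN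
      obtain ⟨γ, hγm, hγ⟩ := selG (X := G → ℝ) (L := G)
        (fun h x => (∀ n, q n x = cj h (q n x0)) ∨ ¬ ∃ h' : G, ∀ n, q n x = cj h' (q n x0))
        (by
          intro x
          by_cases hx : ∃ h' : G, ∀ n, q n x = cj h' (q n x0)
          · obtain ⟨h, hh⟩ := hx
            exact ⟨h, Or.inl hh⟩
          · exact ⟨1, Or.inr hx⟩)
        (by
          intro h
          have h1 : ∀ h : G, MeasurableSet {x | ∀ n, q n x = cj h (q n x0)} := by
            intro h
            have : {x | ∀ n, q n x = cj h (q n x0)} = ⋂ n, {x | q n x = cj h (q n x0)} := by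
              ext x; simp
            rw [this]
            exact MeasurableSet.iInter fun n => hqmeas n _
          have : {x | (∀ n, q n x = cj h (q n x0)) ∨ ¬ ∃ h' : G, ∀ n, q n x = cj h' (q n x0)} =
              {x | ∀ n, q n x = cj h (q n x0)} ∪
                (⋃ h' : G, {x | ∀ n, q n x = cj h' (q n x0)})ᶜ := by
            ext x; simp
          rw [this]
          exact (h1 h).union (MeasurableSet.iUnion fun h' => h1 h').compl)
      have hγae : ∀ᵐ x ∂μ, (⨅ n, q n x) = cj (γ x) U0 := by
        filter_upwards [hx0] with x hx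
        rcases hγ x with h | h
        · rw [hU0, cj_iInf]; exact iInf_congr h
        · exact absurd hx h
      let f1 : (G → ℝ) → Y := fun x => (γ x)⁻¹ • f x
      have hf1 : Measurable f1 := by
        apply meas_smul hact hf.meas (fun x => (γ x)⁻¹)
        intro h
        have : {x | (γ x)⁻¹ = h} = {x | γ x = h⁻¹} := by
          ext x; simp [inv_eq_iff_eq_inv]
        rw [this]; exact hγm _
      let lam1 : G → (G → ℝ) → G := fun g x => (γ (shift g x))⁻¹ * lam g x * γ x
      have hlam1 : ∀ g h, MeasurableSet {x | lam1 g x = h} := by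
        intro g h
        have : {x | lam1 g x = h} = ⋃ u : G, ⋃ v : G, ({x | γ (shift g x) = u} ∩
            ({x | γ x = v} ∩ {x | lam g x = u * h * v⁻¹})) := by
          ext x
          simp only [lam1, Set.mem_ofPred_eq, Set.mem_iUnion, Set.mem_inter_iff]
          constructor
          · intro hx
            exact ⟨_, _, rfl, rfl, by rw [← hx]; group⟩
          · rintro ⟨u, v, h1, h2, h3⟩
            rw [h1, h2, h3]; group
        rw [this]
        exact MeasurableSet.iUnion fun u => MeasurableSet.iUnion fun v =>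
          ((hP.mp g).measurable (hγm u)).inter ((hγm v).inter (hlam g _))
      obtain ⟨y, hy⟩ := hL1 G S C hT Y hact f1 lam1 N hf1 hlam1 hNl (by
        intro g _
        have hγae' : ∀ᵐ x ∂μ, (⨅ n, q n (shift g x)) = cj (γ (shift g x)) U0 :=
          (hP.mp g).quasiMeasurePreserving.ae hγae
        filter_upwards [hγae, hγae'] with x h1 h2
        refine ⟨?_, ?_⟩
        · simp only [f1, lam1]
          rw [hlam', mul_smul, mul_smul, smul_inv_smul]
        · have h3 : cj (lam1 g x) U0 = U0 := by
            simp only [lam1]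
            rw [cj_mul, cj_mul, ← h1, cj_iInf]
            have : (⨅ n, cj (lam g x) (q n x)) = ⨅ n, q n (shift g x) :=
              iInf_congr fun n => (hqcj n g x).symm
            rw [this, h2, ← cj_mul, inv_mul_cancel, cj_one]
          rw [hNdef, Subgroup.mem_normalizer_iff]
          intro k
          constructor
          · intro hk
            rw [← h3, mem_cj]
            simpa [mul_assoc] using hk
          · intro hk
            rw [← h3, mem_cj] at hk
            simpa [mul_assoc] using hk)
      exact hy.ne' (no_atom hfree hf f1 (fun x => ⟨_, rfl⟩) y)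
  -- Step C
  let X1 : Set (G → ℝ) := {x | MulAction.stabilizer G (f x) = ⊥}
  have hX1m : MeasurableSet X1 := by
    have : X1 = ⋂ g ∈ {g : G | g ≠ 1}, {x | g • f x = f x}ᶜ := by
      ext x
      simp only [X1, Set.mem_ofPred_eq, Set.mem_iInter, Set.mem_compl_iff, ne_eq]
      rw [Subgroup.eq_bot_iff_forall]
      constructor
      · intro h g hg hgx
        exact hg (h g hgx)
      · intro h g hg
        by_contra hne
        exact h g hne hg
    rw [this]
    refine MeasurableSet.biInter (Set.to_countable _) fun g _ => ?_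
    have := measSet_eq hact hf.meas g 1
    rw [show {x | g • f x = (1 : G) • f x} = {x | g • f x = f x} by simp] at this
    exact this.compl
  have hX1inv : ∀ (g : G) (x : G → ℝ), shift g x ∈ X1 ↔ x ∈ X1 := by
    intro g x
    simp only [X1, Set.mem_ofPred_eq, hlam', cj_stab]
    constructor
    · intro h
      have h1 : cj (lam g x)⁻¹ (cj (lam g x) (MulAction.stabilizer G (f x))) =
          cj (lam g x)⁻¹ ⊥ := by rw [h]
      rw [← cj_mul, inv_mul_cancel, cj_one] at h1
      rw [h1]; exact Subgroup.map_bot _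
    · intro h
      rw [h]; exact Subgroup.map_bot _
  have hX1free : ∀ x ∈ X1, ∀ h h' : G, h • f x = h' • f x → h = h' := by
    intro x hx h h' hh
    have : h'⁻¹ * h ∈ MulAction.stabilizer G (f x) := by
      rw [MulAction.mem_stabilizer_iff, mul_smul, hh, inv_smul_smul]
    rw [hx, Subgroup.mem_bot, inv_mul_eq_one] at this
    exact this.symm
  let a : G → (G → ℝ) → G := fun g x => if x ∈ X1 then lam g x else 1
  have ha : Coc shift a := by
    constructor
    · intro g l
      have : {x | a g x = l} = (X1 ∩ {x | lam g x = l}) ∪ (X1ᶜ ∩ {_x | (1 : G) = l}) := by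
        ext x
        simp only [a, Set.mem_ofPred_eq, Set.mem_union, Set.mem_inter_iff, Set.mem_compl_iff]
        split_ifs with hx <;> simp [hx]
      rw [this]
      exact (hX1m.inter (hlam g l)).union (hX1m.compl.inter (MeasurableSet.const _))
    · intro g h x
      simp only [a, hX1inv]
      split_ifs with hx
      · apply hX1free x hx
        rw [← hlam', shift_mul, hlam', hlam', mul_smul]
      · simp
  -- Step D
  obtain ⟨ρ, φ, hφm, hφ⟩ := popa hb hm hmE hpB hi hc hT2 hsp G S C hT G a ha
  let f2 : (G → ℝ) → Y := fun x => (φ x)⁻¹ • f x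
  have hf2 : Measurable f2 := by
    apply meas_smul hact hf.meas (fun x => (φ x)⁻¹)
    intro h
    have : {x | (φ x)⁻¹ = h} = {x | φ x = h⁻¹} := by
      ext x; simp [inv_eq_iff_eq_inv]
    rw [this]; exact hφm _
  have hf2orb : ∀ x, ∃ h : G, f2 x = h • f x := fun x => ⟨_, rfl⟩
  have hf2eq : ∀ g, ∀ᵐ x ∂μ, f2 (shift g x) = ρ g • f2 x := by
    intro g
    filter_upwards [hφ g, hstab] with x h1 h2
    have h3 : a g x = lam g x := by
      have h2' : x ∈ X1 := h2
      simp only [a]
      rw [if_pos h2']
    rw [h3] at h1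
    simp only [f2]
    rw [hlam', h1, ← mul_smul, ← mul_smul]
    congr 1
    group
  -- Step E
  have hρfg : ρ.range.FG := by
    have := hG.fg
    rw [← Group.fg_iff_subgroup_fg]
    exact Group.fg_range ρ
  have hρnf : ¬ Finite ρ.range := by
    intro hfin
    obtain ⟨y, hy⟩ := hL1 G S C hT Y hact f2 (fun g _ => ρ g) ρ.range hf2
      (fun g h => MeasurableSet.const _)
      (fun A _ hA => Finite.of_injective _ (Subgroup.inclusion_injective hA))
      (fun g _ => by
        filter_upwards [hf2eq g] with x hx
        exact ⟨hx, ⟨g, rfl⟩⟩)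
    exact hy.ne' (no_atom hfree hf f2 hf2orb y)
  have hρi : ρ.range.index ≠ 0 := (hfinor _ hρfg).resolve_left hρnf
  have hρinj : Function.Injective ρ := by
    rw [← MonoidHom.ker_eq_bot_iff]
    by_contra hker
    have h1 := hG.ji ρ.ker inferInstance hker
    apply hρnf
    have : ρ.ker.FiniteIndex := ⟨h1⟩
    have : Finite (G ⧸ ρ.ker) := Subgroup.finite_quotient_of_finiteIndex
    exact Finite.of_equiv _ (QuotientGroup.quotientKerEquivRange ρ).toEquiv
  -- the good set
  let X0 : Set (G → ℝ) := X1 ∩ ⋂ g : G, {x | f2 (shift g x) = ρ g • f2 x}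
  have hX0m : MeasurableSet X0 :=
    hX1m.inter (MeasurableSet.iInter fun g =>
      measurableSet_eq_fun (hf2.comp (hP.mp g).measurable) ((hact _).comp hf2))
  have hX0 : μ X0ᶜ = 0 := by
    have h1 : ∀ᵐ x ∂μ, x ∈ X0 := by
      have h2 : ∀ᵐ x ∂μ, ∀ g, f2 (shift g x) = ρ g • f2 x := ae_all_iff.2 hf2eq
      filter_upwards [hstab, h2] with x h3 h4
      exact ⟨h3, Set.mem_iInter.2 h4⟩
    exact h1
  refine ⟨ρ, f2, X0, hρinj, hρi, hf2, hf2orb, hX0m, hX0, ?_, ?_⟩
  · intro x hx x' hx' hxx
    obtain ⟨g, rfl⟩ := hf.red x x' ⟨φ x' * (φ x)⁻¹, by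
      have : f x' = φ x' • f2 x' := by simp only [f2]; rw [smul_inv_smul]
      rw [this, ← hxx]
      simp only [f2]
      rw [mul_smul]⟩
    have h1 : f2 (shift g x) = ρ g • f2 x := Set.mem_iInter.1 hx.2 g
    rw [← hxx] at h1
    have h2 : (φ x)⁻¹ • f x = (ρ g * (φ x)⁻¹) • f x := by
      rw [mul_smul]; exact h1
    have h3 := hX1free x hx.1 _ _ h2
    have h4 : ρ g = 1 := by
      have := congrArg (· * φ x) h3
      simpa using this.symm
    have h5 : g = 1 := hρinj (by rw [h4, map_one])
    rw [h5, shift_one]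
  · intro x hx g
    exact Set.mem_iInter.1 hx.2 g

end Pool.Agent.H736.EN
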