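import Pool.Agent.H736.EN.Ent
import Pool.Agent.H736.EN.SR

/-! # The left translation action on closed subsets is not universal -/

set_option autoImplicit false

open MeasureTheory Filter Topology
open scoped ENNReal

namespace Pool.Agent.H736.EN

open Pool.Agent.H656.DC

/-- subsets of `G` with the product Borel structure -/
def ShP (G : Type) : Type := G → Prop

instance (G : Type) : MeasurableSpace (ShP G) := inferInstanceAs (MeasurableSpace (G → Prop))

instance (G : Type) [Countable G] : StandardBorelSpace (ShP G) :=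
  inferInstanceAs (StandardBorelSpace (G → Prop))

instance (G : Type) [Group G] : MulAction G (ShP G) where
  smul g y := fun h => y (g⁻¹ * h)
  one_smul y := by
    funext h
    show y (1⁻¹ * h) = y h
    simp
  mul_smul g k y := by
    funext h
    show y ((g * k)⁻¹ * h) = y (k⁻¹ * (g⁻¹ * h))
    simp [mul_assoc]

theorem smul_ShP {G : Type} [Group G] (g h : G) (y : ShP G) : (g • y) h = y (g⁻¹ * h) := rfl

theorem finsep {p : ℕ} {G : Type} [Group G] (hp : 0 < p) (hG : RTM p G) (F : Finset G)
    (hF : ∀ g ∈ F, g ≠ 1) :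
    ∃ K : Subgroup G, K.Normal ∧ K.index ≠ 0 ∧ ∀ g ∈ F, g ∉ K := by
  classical
  induction F using Finset.induction_on with
  | empty => exact ⟨⊤, inferInstance, by simp, by simp⟩
  | insert a F ha ih =>
    obtain ⟨K, hK1, hK2, hK3⟩ := ih (fun g hg => hF g (Finset.mem_insert_of_mem hg))
    obtain ⟨K', hK1', ⟨k, hk⟩, hK3'⟩ := hG.resp a (hF a (Finset.mem_insert_self _ _))
    refine ⟨K ⊓ K', inferInstance, ?_, ?_⟩
    · apply Subgroup.index_inf_ne_zero hK2
      rw [hk]; positivity
    · intro g hg
      rcases Finset.mem_insert.1 hg with rfl | hg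
      · intro h; exact hK3' h.2
      · intro h; exact hK3 g hg h.1

/-- the Bernoulli shift of the final group does not reduce to the shift on its subsets -/
theorem no_red (hfree : S_free) (hb : S_bernPMP) (hm : S_mix) (hmE : S_mixErg) (hpB : S_prodBern)
    (hi : S_interp) (hc : S_cont) (hT2 : S_T2) (hsp : S_split) (hconst : S_const) (hL1 : S_L1)
    (hseq : S_seq) (hdense : S_dense) (hnorm : S_norm)
    (p : ℕ) [Fact p.Prime] (G : Type) [Group G] [Countable G] (hG : RTM p G)
    (S : Finset G) (C : ℝ) (hT : HasTC G S C) (f : (G → ℝ) → ShP G) : ¬ Red G (ShP G) f := by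
  classical
  intro hf
  have hact : ∀ g : G, Measurable (fun y : ShP G => g • y) := by
    intro g
    apply measurable_pi_lambda
    intro h
    exact measurable_pi_apply (g⁻¹ * h)
  obtain ⟨ρ, f', X0, hρ, hρi, hf', -, hX0, hX0', hinj, heq⟩ := sr hfree hb hm hmE hpB hi hc hT2 hsp
    hconst hL1 hseq hdense hnorm p G hG S C hT (ShP G) hact f hf
  have hp : 0 < p := (Fact.out : p.Prime).pos
  have : ρ.range.FiniteIndex := ⟨hρi⟩
  have : Finite (G ⧸ ρ.range) := Subgroup.finite_quotient_of_finiteIndex
  refine noGen (fun g => (hb G ℝ nu0).mp g) (fun F hF => finsep hp hG F hF)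
    ((G ⧸ ρ.range) → Prop) (fun x q => f' x (q.out)⁻¹) ?_ X0 hX0 hX0' ?_
  · intro a
    have hm' : ∀ h : G, Measurable (fun x => f' x h) := fun h => (measurable_pi_apply h).comp hf'
    have : {x | (fun q : G ⧸ ρ.range => f' x (q.out)⁻¹) = a} =
        ⋂ q : G ⧸ ρ.range, {x | f' x (q.out)⁻¹ = a q} := by
      ext x
      simp only [Set.mem_ofPred_eq, Set.mem_iInter]
      exact funext_iff
    rw [this]
    exact MeasurableSet.iInter fun q => (hm' _) (MeasurableSet.of_discrete (s := {a q}))
  · intro x hx x' hx' hxx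
    apply hinj hx hx'
    funext h
    have h1 : ∀ g : G, ∀ q : G ⧸ ρ.range, f' x (ρ g * (q.out)⁻¹) = f' x' (ρ g * (q.out)⁻¹) := by
      intro g q
      have h2 := congrFun (congrFun hxx g) q
      simp only [] at h2
      rw [heq x hx, heq x' hx', smul_ShP, smul_ShP, map_inv, inv_inv] at h2
      exact h2
    have h3 : ((Quotient.out ((h⁻¹ : G) : G ⧸ ρ.range) : G) : G ⧸ ρ.range) = (h⁻¹ : G) :=
      Quotient.out_eq' _
    rw [QuotientGroup.eq] at h3
    obtain ⟨g', hg'⟩ := h3
    have h4 : h = ρ g'⁻¹ * (Quotient.out ((h⁻¹ : G) : G ⧸ ρ.range))⁻¹ := by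
      rw [map_inv, hg']
      group
    rw [h4]
    exact h1 _ _

end Pool.Agent.H736.EN
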