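import Pool.Agent.H736.EN.Lv
import Pool.Agent.H656.DC.Main

/-! # The group -/

set_option autoImplicit false

namespace Pool.Agent.H736.EN

open Pool.Agent.H656.DC

theorem group : ∃ (G : Type) (_ : Group G) (_ : Countable G), RTM 67 G ∧
    ∃ (S : Finset G) (C : ℝ), HasTC G S C := by
  obtain ⟨G, iG, hR, S, C, hT⟩ := Main.group_exists
  have hcount : Countable G := by
    obtain ⟨α, hα, φ, hφ⟩ := Group.fg_iff_exists_freeGroup_hom_surjective_finite.1 hR.fg
    exact hφ.countable
  exact ⟨G, iG, hcount, hR, S, C, hT⟩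

end Pool.Agent.H736.EN
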