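import Pool.Agent.H736.EN.Fin
import Pool.Agent.H656.DC.BernPMP
import Pool.Agent.H656.DC.Mix
import Pool.Agent.H656.DC.ProdBern
import Pool.Agent.H656.DC.Interp
import Pool.Agent.H656.DC.Cont
import Pool.Agent.H656.DC.T1
import Pool.Agent.H656.DC.T2
import Pool.Agent.H656.DC.Split
import Pool.Agent.H656.DC.Const
import Pool.Agent.H656.DC.L1
import Pool.Agent.H656.DC.Free
import Pool.Agent.H656.DC.Seq
import Pool.Agent.H656.DC.Burnside
import Pool.Agent.H656.DC.Dense
import Pool.Agent.H656.DC.Torsion
import Pool.Agent.H656.DC.Norm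

/-! # Assembly of the ergodic part -/

set_option autoImplicit false

namespace Pool.Agent.H736.EN

open Pool.Agent.H656.DC

theorem tors (G : Type) [Group G] (hG : RTM 67 G) (g : G) : IsOfFinOrder g := by
  have : Fact (Nat.Prime 67) := ⟨by norm_num⟩
  exact Torsion.main 67 G hG g

theorem noRed (p : ℕ) [Fact p.Prime] (G : Type) [Group G] [Countable G] (hG : RTM p G)
    (S : Finset G) (C : ℝ) (hT : HasTC G S C) (f : (G → ℝ) → ShP G) : ¬ Red G (ShP G) f :=
  no_red Free.main BernPMP.main (Mix.main BernPMP.main) BernPMP.main2 ProdBern.main Interp.main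
    (Cont.main Interp.main) T2.main Split.main
    (Const.main Interp.main (Cont.main Interp.main) T1.main (Mix.main BernPMP.main) BernPMP.main
      BernPMP.main2 ProdBern.main)
    (L1.main T1.main (Mix.main BernPMP.main) BernPMP.main) Seq.main (Dense.main Burnside.main)
    (Norm.main Torsion.main) p G hG S C hT f

end Pool.Agent.H736.EN
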